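import Pool.Agent.H240.GU.Def6

/-!
# Clairaut for curves (`StClair3`), adapted from Pool.Agent.H240.CG.ErgA (`clair2`)
-/

set_option autoImplicit false

open Set Filter Topology MeasureTheory
open scoped ContDiff

noncomputable section

namespace Pool.Agent.H17.EV

open Pool.Agent.Y262.EG
open Pool.Agent.H240.EV

theorem fd_re {g : ℝ → ℝ} {g' : ℝ} {z : ℂ} (h : HasDerivAt g g' z.re) :
    px (fun z : ℂ => g z.re) z = g' ∧ py (fun z : ℂ => g z.re) z = 0 := by
  have h1 : HasFDerivAt (fun z : ℂ => g z.re) (g' • Complex.reCLM) z := by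
    have := h.comp_hasFDerivAt z Complex.reCLM.hasFDerivAt
    exact this
  unfold px py
  rw [h1.fderiv]
  constructor
  · simp
  · simp

/-- **CLAIR**. -/
theorem stClair3 : StClair3 := by
  intro L δ δ' x0 g hL hδ hδ' hx0 hx0L hgs hgx0 hgd0 hcurv
  set I' : Set ℝ := Ioo (-δ') (L + δ') with hI'
  have hI'o : IsOpen I' := isOpen_Ioo
  set g1 : ℝ → ℝ := deriv g with hg1
  have hgat : ∀ x ∈ I', ContDiffAt ℝ ∞ g x := fun x hx => hgs.contDiffAt (hI'o.mem_nhds hx)
  have hg : ∀ x ∈ I', HasDerivAt g (g1 x) x := fun x hx =>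
    ((hgat x hx).differentiableAt (by simp)).hasDerivAt
  have hg1d : ∀ x ∈ I', HasDerivAt g1 (deriv g1 x) x := fun x hx => by
    have h1 : ContDiffOn ℝ ∞ g1 I' := ((contDiffOn_infty_iff_deriv_of_isOpen hI'o).1 hgs).2
    exact ((h1.contDiffAt (hI'o.mem_nhds hx)).differentiableAt (by simp)).hasDerivAt
  have hg2 : ∀ x ∈ I', 0 ≤ deriv g1 x := fun x hx => hcurv x hx
  have hI'conv : Convex ℝ I' := convex_Ioo _ _
  have hmono : MonotoneOn g1 I' := by
    refine monotoneOn_of_deriv_nonneg hI'conv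
      (fun x hx => (hg1d x hx).continuousAt.continuousWithinAt) ?_ ?_
    · intro x hx
      exact (hg1d x (interior_subset hx)).differentiableAt.differentiableWithinAt
    · intro x hx
      rw [(hg1d x (interior_subset hx)).deriv]
      exact hg2 x (interior_subset hx)
  have hmid : x0 ∈ I' := ⟨by linarith, by linarith⟩
  have hg1mid : g1 x0 = 0 := (hg _ hmid).unique hgd0
  -- convexity
  have key : ∀ x, -δ < x → x < L + δ → 0 ≤ g x ∧ g x ≤ |g1 x| * (L + δ) := by
    intro x hx1 hx2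
    have hxI : x ∈ I' := ⟨by linarith, by linarith⟩
    rcases lt_trichotomy x x0 with h0 | h0 | h0
    · have hsub' : Icc x x0 ⊆ I' := fun y hy => ⟨by linarith [hy.1, hxI.1], by linarith [hy.2]⟩
      obtain ⟨ξ, hξ, he⟩ := exists_hasDerivAt_eq_slope g g1 h0
        (fun y hy => (hg y (hsub' hy)).continuousAt.continuousWithinAt)
        (fun y hy => hg y (hsub' (Ioo_subset_Icc_self hy)))
      have h1 : g1 x ≤ g1 ξ := hmono hxI (hsub' (Ioo_subset_Icc_self hξ)) hξ.1.le
      have h2 : g1 ξ ≤ 0 := by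
        rw [← hg1mid]
        exact hmono (hsub' (Ioo_subset_Icc_self hξ)) hmid hξ.2.le
      have h3 : x0 - x ≠ 0 := by linarith
      rw [eq_div_iff h3, hgx0] at he
      have h4 : g x = -g1 ξ * (x0 - x) := by linarith
      have h5 : -g1 ξ ≤ |g1 x| := by
        rw [abs_of_nonpos (h1.trans h2)]
        linarith
      rw [h4]
      refine ⟨mul_nonneg (by linarith) (by linarith), ?_⟩
      exact mul_le_mul h5 (by linarith) (by linarith) (abs_nonneg _)
    · rw [h0, hgx0]
      exact ⟨le_rfl, by positivity⟩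
    · have hsub' : Icc x0 x ⊆ I' := fun y hy => ⟨by linarith [hy.1], by linarith [hy.2, hxI.2]⟩
      obtain ⟨ξ, hξ, he⟩ := exists_hasDerivAt_eq_slope g g1 h0
        (fun y hy => (hg y (hsub' hy)).continuousAt.continuousWithinAt)
        (fun y hy => hg y (hsub' (Ioo_subset_Icc_self hy)))
      have h2 : g1 ξ ≤ g1 x := hmono (hsub' (Ioo_subset_Icc_self hξ)) hxI hξ.2.le
      have h3 : 0 ≤ g1 ξ := by
        rw [← hg1mid]
        exact hmono hmid (hsub' (Ioo_subset_Icc_self hξ)) hξ.1.le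
      have h4 : x - x0 ≠ 0 := by linarith
      rw [eq_div_iff h4, hgx0, sub_zero] at he
      rw [← he]
      refine ⟨mul_nonneg h3 (by linarith), ?_⟩
      exact mul_le_mul (h2.trans (le_abs_self _)) (by linarith) (by linarith) (abs_nonneg _)
  -- the maximum
  obtain ⟨G, hG0, hG⟩ : ∃ G : ℝ, 0 ≤ G ∧ ∀ x, -δ < x → x < L + δ → g x ≤ G := by
    have hc : ContinuousOn g (Icc (-δ) (L + δ)) := fun x hx =>
      (hg x ⟨by linarith [hx.1], by linarith [hx.2]⟩).continuousAt.continuousWithinAt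
    obtain ⟨G, hG⟩ := (isCompact_Icc.image_of_continuousOn hc).bddAbove
    refine ⟨max G 0, le_max_right _ _, fun x h1 h2 => ?_⟩
    exact (hG (mem_image_of_mem g ⟨h1.le, h2.le⟩)).trans (le_max_left _ _)
  set K := (L + 2 * δ) * Real.exp (2 * G) with hK
  have hK0 : 0 < K := by positivity
  set K2 := Real.exp G * (2 * (L + δ) * Real.exp G) with hK2
  have hK20 : 0 < K2 := by positivity
  refine ⟨K ^ 2 + K2, fun b l hl hb => ?_⟩
  have hl0 : 0 < l := by linarith
  have hstay : ∀ t ∈ Icc 0 l, (b t).1 ∈ Stp L δ := fun t ht => (hb t ht).1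
  set x : ℝ → ℝ := fun t => (b t).1.re with hx
  set θ : ℝ → ℝ := fun t => (b t).2 with hθ
  have hxm : ∀ t ∈ Icc 0 l, -δ < x t ∧ x t < L + δ := fun t ht => hstay t ht
  have hst : ∀ t ∈ Icc 0 l, (b t).1 ∈ Stp L δ' := fun t ht =>
    ⟨by linarith [(hstay t ht).1], by linarith [(hstay t ht).2]⟩
  have hxI : ∀ t ∈ Icc 0 l, x t ∈ I' := fun t ht => hst t ht
  have hdx : ∀ t ∈ Icc 0 l, HasDerivAt x (Real.exp (-g (x t)) * Real.cos (θ t)) t := by
    intro t ht
    have h1 := (Complex.reCLM.comp (ContinuousLinearMap.fst ℝ ℂ ℝ)).hasFDerivAt.comp_hasDerivAt t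
      (hb t ht).2
    have h2 : (Complex.reCLM.comp (ContinuousLinearMap.fst ℝ ℂ ℝ)) (XX (fun z => g z.re) (b t)) =
        Real.exp (-g (x t)) * Real.cos (θ t) := by
      show Real.exp (-g (b t).1.re) * Real.cos (b t).2 = _
      rfl
    rw [h2] at h1
    exact h1
  have hdθ : ∀ t ∈ Icc 0 l, HasDerivAt θ
      (Real.exp (-g (x t)) * (-(g1 (x t)) * Real.sin (θ t))) t := by
    intro t ht
    have h1 := (ContinuousLinearMap.snd ℝ ℂ ℝ).hasFDerivAt.comp_hasDerivAt t (hb t ht).2
    have h2 : (ContinuousLinearMap.snd ℝ ℂ ℝ) (XX (fun z => g z.re) (b t)) =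
        Real.exp (-g (x t)) * (-(g1 (x t)) * Real.sin (θ t)) := by
      show Real.exp (-g (b t).1.re) * (-(px (fun z : ℂ => g z.re) (b t).1) * Real.sin (b t).2 +
        py (fun z : ℂ => g z.re) (b t).1 * Real.cos (b t).2) = _
      have h3 := fd_re (hg (b t).1.re (hxI t ht))
      rw [h3.1, h3.2]
      ring
    rw [h2] at h1
    exact h1
  have hdE : ∀ t ∈ Icc 0 l, HasDerivAt (fun t => Real.exp (g (x t)))
      (g1 (x t) * Real.cos (θ t)) t := by
    intro t ht
    have h1 := ((hg (x t) (hxI t ht)).comp t (hdx t ht)).exp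
    have h2 : Real.exp (g (x t)) * (g1 (x t) * (Real.exp (-g (x t)) * Real.cos (θ t))) =
        g1 (x t) * Real.cos (θ t) := by
      have : Real.exp (g (x t)) * Real.exp (-g (x t)) = 1 := by
        rw [← Real.exp_add, add_neg_cancel, Real.exp_zero]
      linear_combination (g1 (x t) * Real.cos (θ t)) * this
    rw [← h2]
    exact h1
  have hee : ∀ t, Real.exp (g (x t)) * Real.exp (-g (x t)) = 1 := fun t => by
    rw [← Real.exp_add, add_neg_cancel, Real.exp_zero]
  have hdc : ∀ t ∈ Icc 0 l, HasDerivAt (fun t => Real.exp (g (x t)) * Real.sin (θ t)) 0 t := by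
    intro t ht
    have h1 := (hdE t ht).mul (hdθ t ht).sin
    have h2 : g1 (x t) * Real.cos (θ t) * Real.sin (θ t) + Real.exp (g (x t)) *
        (Real.cos (θ t) * (Real.exp (-g (x t)) * (-(g1 (x t)) * Real.sin (θ t)))) = 0 := by
      linear_combination (-(g1 (x t)) * Real.cos (θ t) * Real.sin (θ t)) * hee t
    rw [← h2]
    exact h1
  have hdb : ∀ t ∈ Icc 0 l, HasDerivAt (fun t => Real.exp (g (x t)) * Real.cos (θ t))
      (g1 (x t)) t := by
    intro t ht
    have h1 := (hdE t ht).mul (hdθ t ht).cos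
    have h2 : g1 (x t) * Real.cos (θ t) * Real.cos (θ t) + Real.exp (g (x t)) *
        (-Real.sin (θ t) * (Real.exp (-g (x t)) * (-(g1 (x t)) * Real.sin (θ t)))) =
        g1 (x t) := by
      linear_combination (g1 (x t) * Real.sin (θ t) * Real.sin (θ t)) * hee t +
        g1 (x t) * Real.cos_sq_add_sin_sq (θ t)
    rw [← h2]
    exact h1
  set cc : ℝ := Real.exp (g (x 0)) * Real.sin (θ 0) with hcc
  have hcc_const : ∀ t ∈ Icc 0 l, Real.exp (g (x t)) * Real.sin (θ t) = cc := by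
    refine constant_of_has_deriv_right_zero
      (fun t ht => (hdc t ht).continuousAt.continuousWithinAt)
      (fun t ht => (hdc t (Ico_subset_Icc_self ht)).hasDerivWithinAt)
  have hsq : ∀ t ∈ Icc 0 l, (Real.exp (g (x t)) * Real.cos (θ t)) ^ 2 + cc ^ 2 =
      Real.exp (g (x t)) ^ 2 := by
    intro t ht
    rw [← hcc_const t ht]
    linear_combination (Real.exp (g (x t)) ^ 2) * Real.cos_sq_add_sin_sq (θ t)
  have hgoal : Real.exp (g (b 0).1.re) * (|Real.sin (b 0).2|) = |cc| := by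
    rw [hcc, abs_mul, abs_of_pos (Real.exp_pos _)]
  rw [hgoal]
  set c := |cc| with hc
  have hc0 : 0 ≤ c := abs_nonneg _
  have hcsq : cc ^ 2 = c ^ 2 := (sq_abs cc).symm
  have hll : 1 / l ≤ 1 := by
    rw [div_le_one hl0]; exact hl
  rcases lt_trichotomy c 1 with h1 | h1 | h1
  · -- the orbit crosses the cylinder
    obtain ⟨ξ, hξ, he⟩ := exists_hasDerivAt_eq_slope x
      (fun t => Real.exp (-g (x t)) * Real.cos (θ t)) hl0
      (fun t ht => (hdx t ht).continuousAt.continuousWithinAt)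
      (fun t ht => hdx t (Ioo_subset_Icc_self ht))
    have hξ' := Ioo_subset_Icc_self hξ
    rw [sub_zero, eq_div_iff hl0.ne'] at he
    have hdist : |x l - x 0| ≤ L + 2 * δ := by
      have a1 := hxm l ⟨hl0.le, le_rfl⟩
      have a2 := hxm 0 ⟨le_rfl, hl0.le⟩
      rw [abs_le]
      constructor <;> linarith [a1.1, a1.2, a2.1, a2.2]
    have hgξ := key (x ξ) (hxm ξ hξ').1 (hxm ξ hξ').2
    have hGξ := hG (x ξ) (hxm ξ hξ').1 (hxm ξ hξ').2
    have hs := hsq ξ hξ'
    have he1 : 1 ≤ Real.exp (g (x ξ)) := Real.one_le_exp hgξ.1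
    have hbb0 : 1 - c ^ 2 ≤ (Real.exp (g (x ξ)) * Real.cos (θ ξ)) ^ 2 := by
      rw [hcsq] at hs
      nlinarith
    have hexpG : Real.exp (g (x ξ)) ≤ Real.exp G := Real.exp_le_exp.mpr hGξ
    -- x' = exp (-2g) b
    have h2 : (Real.exp (g (x ξ)) * Real.cos (θ ξ)) * l = Real.exp (g (x ξ)) ^ 2 * (x l - x 0) := by
      rw [← he]
      linear_combination (-(Real.exp (g (x ξ)) * Real.cos (θ ξ) * l)) * hee ξ
    have h3 : (1 - c ^ 2) * l ^ 2 ≤ K ^ 2 := by
      calc (1 - c ^ 2) * l ^ 2 ≤ (Real.exp (g (x ξ)) * Real.cos (θ ξ)) ^ 2 * l ^ 2 := by gcongr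
        _ = (Real.exp (g (x ξ)) ^ 2 * (x l - x 0)) ^ 2 := by rw [← h2]; ring
        _ = (Real.exp (g (x ξ)) ^ 2 * |x l - x 0|) ^ 2 := by rw [mul_pow, mul_pow, sq_abs]
        _ ≤ (Real.exp G ^ 2 * (L + 2 * δ)) ^ 2 := by gcongr
        _ = K ^ 2 := by
            rw [hK, ← Real.exp_nat_mul]
            push_cast
            ring
    have h4 : 1 - c ≤ 1 - c ^ 2 := by nlinarith
    rw [abs_of_nonpos (by linarith), le_div_iff₀ hl0]
    have h5 : (1 - c ^ 2) * l ≤ (1 - c ^ 2) * l ^ 2 := by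
      have : 0 ≤ 1 - c ^ 2 := by nlinarith
      have : l ≤ l ^ 2 := by nlinarith
      gcongr
    nlinarith
  · rw [h1, sub_self, abs_zero]
    positivity
  · -- the orbit does not cross the cylinder
    obtain ⟨ξ, hξ, he⟩ := exists_hasDerivAt_eq_slope
      (fun t => Real.exp (g (x t)) * Real.cos (θ t)) (fun t => g1 (x t)) hl0
      (fun t ht => (hdb t ht).continuousAt.continuousWithinAt)
      (fun t ht => hdb t (Ioo_subset_Icc_self ht))
    have hξ' := Ioo_subset_Icc_self hξ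
    rw [sub_zero, eq_div_iff hl0.ne'] at he
    have hbb : ∀ t ∈ Icc 0 l, |Real.exp (g (x t)) * Real.cos (θ t)| ≤ Real.exp G := by
      intro t ht
      rw [abs_mul, abs_of_pos (Real.exp_pos _)]
      have a1 := Real.abs_cos_le_one (θ t)
      have a2 : Real.exp (g (x t)) ≤ Real.exp G :=
        Real.exp_le_exp.mpr (hG (x t) (hxm t ht).1 (hxm t ht).2)
      calc Real.exp (g (x t)) * |Real.cos (θ t)| ≤ Real.exp G * 1 := by gcongr
        _ = Real.exp G := mul_one _
    have hce : c ≤ Real.exp (g (x ξ)) := by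
      have hs := hsq ξ hξ'
      rw [hcsq] at hs
      have : c ^ 2 ≤ Real.exp (g (x ξ)) ^ 2 := by nlinarith [sq_nonneg (Real.exp (g (x ξ)) *
        Real.cos (θ ξ))]
      exact abs_le_of_sq_le_sq' this (Real.exp_pos _).le |>.2
    have hlog : Real.log c ≤ g (x ξ) := by
      rw [← Real.log_exp (g (x ξ))]
      exact Real.log_le_log (by linarith) hce
    have hgξ := key (x ξ) (hxm ξ hξ').1 (hxm ξ hξ').2
    have hGξ := hG (x ξ) (hxm ξ hξ').1 (hxm ξ hξ').2
    have h2 : |g1 (x ξ)| * l ≤ 2 * Real.exp G := by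
      have a1 := hbb l ⟨hl0.le, le_rfl⟩
      have a2 := hbb 0 ⟨le_rfl, hl0.le⟩
      have a3 : |g1 (x ξ)| * l = |g1 (x ξ) * l| := by rw [abs_mul, abs_of_pos hl0]
      rw [a3, he]
      refine (abs_sub _ _).trans ?_
      linarith
    have h3 : Real.log c * l ≤ 2 * (L + δ) * Real.exp G := by
      calc Real.log c * l ≤ (|g1 (x ξ)| * (L + δ)) * l := by
            refine mul_le_mul_of_nonneg_right (hlog.trans hgξ.2) hl0.le
        _ = (L + δ) * (|g1 (x ξ)| * l) := by ring
        _ ≤ (L + δ) * (2 * Real.exp G) := by gcongr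
        _ = _ := by ring
    have hcpos : 0 < c := by linarith
    have h4 : c - 1 ≤ c * Real.log c := by
      have := Real.one_sub_inv_le_log_of_pos hcpos
      have h5 : c * (1 - c⁻¹) ≤ c * Real.log c := by gcongr
      have h6 : c * (1 - c⁻¹) = c - 1 := by field_simp
      linarith
    have hlc : 0 ≤ Real.log c := Real.log_nonneg h1.le
    have hcG : c ≤ Real.exp G := hce.trans (Real.exp_le_exp.mpr hGξ)
    rw [abs_of_pos (by linarith), le_div_iff₀ hl0]
    calc (c - 1) * l ≤ (c * Real.log c) * l := by gcongr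
      _ = c * (Real.log c * l) := by ring
      _ ≤ Real.exp G * (2 * (L + δ) * Real.exp G) := by
          refine mul_le_mul hcG h3 (by positivity) (by positivity)
      _ = K2 := rfl
      _ ≤ K ^ 2 + K2 := by nlinarith [sq_nonneg K]

end Pool.Agent.H17.EV
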